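import Pool.Agent.Helper9.VI.Abs.Main
import Pool.Agent.Helper9.VI.Cc.Build

/-!
# MP_c20ff4_an, Q1: full positive answer

There is a unital C*-algebra `A` that is simple and stably finite, has stable rank one, has exactly one
tracial state (so that `T(A)` is a one point Bauer simplex), and has `rc(A) ≥ 1/3 > 0`.

The definitions used in the statement are in `Pool.Agent.Helper9.VI.Defs`:

* `tracialStates A`: the tracial states of `A`, a subset of the dual with the weak-* topology;
* `StablyFinite A`: in each matrix algebra `M_n(A)` every isometry is a unitary;
* `StableRankOne A`: the invertible elements of `A` are dense;
* `QuasiTrace A`: normalized (lower semicontinuous) 2-quasitraces, with their extensions to the `M_n(A)`;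
* `radiusOfComparison A`: the infimum of all `r ≥ 0` such that for all positive `a, b` in matrix algebras
  over `A` the condition `d_τ(a) + r < d_τ(b)` for all normalized 2-quasitraces `τ` implies that `a` is Cuntz
  subequivalent to `b`.

## The algebra

`A` is an inductive limit of algebras of sections of endomorphism bundles of sums of line bundles over
products of 2-spheres (written as torus-equivariant matrix functions on products of 3-spheres). The connecting
maps mix the two constructions of Villadsen: `c_n = 7 * 3^n` coordinate projections (they keep the Chern classes
of high degree), and `c_n + 1` point evaluations, `c_n` of them twisted by new line bundles and one of them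
untwisted.

* Simplicity and uniqueness of the trace come from the point evaluations (`Abs/Simple.lean`,
  `Abs/TrUniq.lean`, `Abs/TrEx.lean`).
* Stable rank one comes from the untwisted lines: an element that is singular at a point evaluation is a
  product of `c_n` elements with one more trivial zero line each, and an element of `A_n` needs only boundedly
  many trivial zero lines, whatever the number of blocks (`Abs/SR1a.lean` - `Abs/SR1e.lean`).
* `rc(A) ≥ 1/3`: the two diagonal projections `p`, `q` of the first stage with traces `1/3` and `2/3`
  satisfy no Cuntz subequivalence `p ≾ q`. This follows from a multi-graded Borsuk-Ulam theorem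
  (`Top/Main.lean`): if `s_g` (`g ∈ G`) are continuous functions on `(S³)^G` of torus weight `e_g ∈ ℕ^G` with
  `e_g(g) ≥ 1`, then the `s_g` have a common zero. It is proved by quantisation: multiplication by `s_g` almost
  preserves multi-homogeneous polynomials of high degree, a Clifford algebra trick turns a family without
  common zero into almost isometries between spaces of polynomials, and the count of dimensions contradicts
  `∑_S (-1)^|S| ∏_i (n_i + 1 + e_S(i)) = ± perm(e) ≠ 0` (`Top/Cliff.lean`, `Top/Count.lean`, `Top/Alt.lean`).

Authors of the blocks: see the results table of the team; the mathematics is by helper9, refereed by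
helper99 and helper90.
-/

namespace Pool.Agent.Results.MP_c20ff4_an.UniqueTraceStableRankOne

open Pool.Agent.Helper9.VI
open scoped ENNReal

/-- **Q1 of MP_c20ff4_an: yes.** There is a unital C*-algebra that is simple, stably finite, of stable rank
one, with a unique tracial state (in particular `T(A)` is nonempty and its set of extreme points is closed)
and with radius of comparison at least `1/3`. -/
theorem result :
    ∃ (A : Type) (_ : CStarAlgebra A) (_ : PartialOrder A) (_ : StarOrderedRing A),
      IsSimpleRing A ∧ StablyFinite A ∧ StableRankOne A ∧ (∃ τ, tracialStates A = {τ}) ∧
      IsClosed (Set.extremePoints ℝ (tracialStates A)) ∧ Nonempty (QuasiTrace A) ∧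
      (1 / 3 : ℝ≥0∞) ≤ radiusOfComparison A :=
  of_sys Stage.theSys

end Pool.Agent.Results.MP_c20ff4_an.UniqueTraceStableRankOne
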